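import Mathlib

/-!
The equation `x x^{-a} x^{a²} = c` over the Frobenius group of order 42 has a solution in a finite
solvable group of derived length three.
-/

namespace Pool.Agent.Results.MP_a21721_al.FiniteSolvable

open Subgroup
open scoped commutatorElement

/-! ### The overgroup: the maps `(t, s) ↦ (λ t + b, μ s + f(t))` of the plane over `ZMod 7` -/

/-- The map `(t, s) ↦ (λ t + b, μ s + f(t))`. -/
@[ext]
structure J where
  /-- `λ` -/
  l : (ZMod 7)ˣ
  /-- `μ` -/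
  m : (ZMod 7)ˣ
  /-- `b` -/
  b : ZMod 7
  /-- `f` -/
  f : ZMod 7 → ZMod 7

namespace J

instance : Mul J := ⟨fun g h => ⟨g.l * h.l, g.m * h.m, g.l * h.b + g.b,
  fun t => g.m * h.f t + g.f (h.l * t + h.b)⟩⟩
instance : One J := ⟨⟨1, 1, 0, fun _ => 0⟩⟩
instance : Inv J := ⟨fun g => ⟨g.l⁻¹, g.m⁻¹, -(((g.l⁻¹ : (ZMod 7)ˣ) : ZMod 7) * g.b),
  fun t => -(((g.m⁻¹ : (ZMod 7)ˣ) : ZMod 7) * g.f (((g.l⁻¹ : (ZMod 7)ˣ) : ZMod 7) * (t - g.b)))⟩⟩

theorem mul_l (g h : J) : (g * h).l = g.l * h.l := rfl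
theorem mul_m (g h : J) : (g * h).m = g.m * h.m := rfl
theorem mul_b (g h : J) : (g * h).b = g.l * h.b + g.b := rfl
theorem mul_f (g h : J) (t : ZMod 7) : (g * h).f t = g.m * h.f t + g.f (h.l * t + h.b) := rfl
theorem one_l : (1 : J).l = 1 := rfl
theorem one_m : (1 : J).m = 1 := rfl
theorem one_b : (1 : J).b = 0 := rfl
theorem one_f (t : ZMod 7) : (1 : J).f t = 0 := rfl
theorem inv_l (g : J) : g⁻¹.l = g.l⁻¹ := rfl
theorem inv_m (g : J) : g⁻¹.m = g.m⁻¹ := rfl
theorem inv_b (g : J) : g⁻¹.b = -(((g.l⁻¹ : (ZMod 7)ˣ) : ZMod 7) * g.b) := rfl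
theorem inv_f (g : J) (t : ZMod 7) : g⁻¹.f t =
  -(((g.m⁻¹ : (ZMod 7)ˣ) : ZMod 7) * g.f (((g.l⁻¹ : (ZMod 7)ˣ) : ZMod 7) * (t - g.b))) := rfl

instance : Group J where
  mul_assoc x y z := by
    ext t
    · simp only [mul_l, mul_assoc]
    · simp only [mul_m, mul_assoc]
    · simp only [mul_b, mul_l, Units.val_mul]; ring
    · simp only [mul_f, mul_m, mul_l, mul_b, Units.val_mul]
      have : (y.l : ZMod 7) * (z.l * t + z.b) + y.b = y.l * z.l * t + (y.l * z.b + y.b) := by ring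
      rw [this]; ring
  one_mul x := by
    ext t
    · simp only [mul_l, one_l, one_mul]
    · simp only [mul_m, one_m, one_mul]
    · simp only [mul_b, one_l, one_b, Units.val_one]; ring
    · simp only [mul_f, one_m, one_f, Units.val_one]; ring
  mul_one x := by
    ext t
    · simp only [mul_l, one_l, mul_one]
    · simp only [mul_m, one_m, mul_one]
    · simp only [mul_b, one_b]; ring
    · simp only [mul_f, one_l, one_b, one_f, Units.val_one]
      have : (1 : ZMod 7) * t + 0 = t := by ring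
      rw [this]; ring
  inv_mul_cancel x := by
    have hl : ((x.l⁻¹ : (ZMod 7)ˣ) : ZMod 7) * x.l = 1 := Units.inv_mul x.l
    ext t
    · simp only [mul_l, inv_l, one_l, inv_mul_cancel]
    · simp only [mul_m, inv_m, one_m, inv_mul_cancel]
    · simp only [mul_b, inv_l, inv_b, one_b]; ring
    · simp only [mul_f, inv_m, inv_f, one_f]
      have : ((x.l⁻¹ : (ZMod 7)ˣ) : ZMod 7) * (x.l * t + x.b - x.b) = t := by
        rw [add_sub_cancel_right, ← mul_assoc, hl, one_mul]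
      rw [this]; ring

instance : Finite J := by
  have : Function.Injective (fun g : J => (g.l, g.m, g.b, g.f)) := by
    intro g h hgh
    simp only [Prod.mk.injEq] at hgh
    exact J.ext hgh.1 hgh.2.1 hgh.2.2.1 hgh.2.2.2
  exact Finite.of_injective _ this

/-- the subgroup `λ = μ = 1` -/
def D1 : Subgroup J where
  carrier := {g | g.l = 1 ∧ g.m = 1}
  mul_mem' := by
    rintro g h ⟨h1, h2⟩ ⟨h3, h4⟩
    exact ⟨by rw [mul_l, h1, h3, one_mul], by rw [mul_m, h2, h4, one_mul]⟩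
  one_mem' := ⟨rfl, rfl⟩
  inv_mem' := by
    rintro g ⟨h1, h2⟩
    exact ⟨by rw [inv_l, h1, inv_one], by rw [inv_m, h2, inv_one]⟩

/-- the subgroup `λ = μ = 1`, `b = 0` -/
def D2 : Subgroup J where
  carrier := {g | g.l = 1 ∧ g.m = 1 ∧ g.b = 0}
  mul_mem' := by
    rintro g h ⟨h1, h2, h5⟩ ⟨h3, h4, h6⟩
    exact ⟨by rw [mul_l, h1, h3, one_mul], by rw [mul_m, h2, h4, one_mul],
      by rw [mul_b, h5, h6]; simp⟩
  one_mem' := ⟨rfl, rfl, rfl⟩
  inv_mem' := by
    rintro g ⟨h1, h2, h5⟩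
    exact ⟨by rw [inv_l, h1, inv_one], by rw [inv_m, h2, inv_one], by rw [inv_b, h5]; simp⟩

theorem derived_one : derivedSeries J 1 ≤ D1 := by
  show ⁅(⊤ : Subgroup J), (⊤ : Subgroup J)⁆ ≤ D1
  rw [commutator_le]
  intro g _ h _
  constructor
  · show (g * h * g⁻¹ * h⁻¹).l = 1
    simp only [mul_l, inv_l]
    rw [mul_comm g.l h.l, mul_inv_cancel_right, mul_inv_cancel]
  · show (g * h * g⁻¹ * h⁻¹).m = 1
    simp only [mul_m, inv_m]
    rw [mul_comm g.m h.m, mul_inv_cancel_right, mul_inv_cancel]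

theorem derived_two : derivedSeries J 2 ≤ D2 := by
  show ⁅derivedSeries J 1, derivedSeries J 1⁆ ≤ D2
  rw [commutator_le]
  intro g hg h hh
  obtain ⟨h1, h2⟩ := derived_one hg
  obtain ⟨h3, h4⟩ := derived_one hh
  refine ⟨?_, ?_, ?_⟩
  · show (g * h * g⁻¹ * h⁻¹).l = 1
    simp [mul_l, inv_l, h1, h3]
  · show (g * h * g⁻¹ * h⁻¹).m = 1
    simp [mul_m, inv_m, h2, h4]
  · show (g * h * g⁻¹ * h⁻¹).b = 0
    simp [mul_b, mul_l, inv_l, inv_b, h1, h3]

theorem derived_three : derivedSeries J 3 = ⊥ := by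
  rw [eq_bot_iff]
  show ⁅derivedSeries J 2, derivedSeries J 2⁆ ≤ ⊥
  rw [commutator_le]
  intro g hg h hh
  obtain ⟨h1, h2, h5⟩ := derived_two hg
  obtain ⟨h3, h4, h6⟩ := derived_two hh
  rw [mem_bot, commutatorElement_eq_one_iff_mul_comm]
  ext t
  · rw [mul_l, mul_l, h1, h3]
  · rw [mul_m, mul_m, h2, h4]
  · rw [mul_b, mul_b, h5, h6, h1, h3]
  · rw [mul_f, mul_f, h1, h3, h2, h4, h5, h6]
    simp only [Units.val_one, one_mul, add_zero]
    rw [add_comm]

/-- the unit `3` -/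
def three : (ZMod 7)ˣ := ⟨3, 5, by decide, by decide⟩

/-- the element `a`: `(t, s) ↦ (3 t, 3 s)` -/
def a : J := ⟨three, three, 0, fun _ => 0⟩

/-- the element `c`: `(t, s) ↦ (t, s + 1)` -/
def c : J := ⟨1, 1, 0, fun _ => 1⟩

/-- the solution `h`: `(t, s) ↦ (t + 1, s + 2 t + 3 t²)` -/
def h : J := ⟨1, 1, 1, fun t => 2 * t + 3 * t ^ 2⟩

theorem a_pow : a ^ 6 = 1 := by
  simp only [pow_succ, pow_zero, one_mul]
  ext t
  · simp only [mul_l, one_l, a]; decide
  · simp only [mul_m, one_m, a]; decide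
  · simp only [mul_b, mul_l, one_b, a]; decide
  · simp only [mul_f, mul_m, one_f, a]; simp

theorem c_pow : c ^ 7 = 1 := by
  simp only [pow_succ, pow_zero, one_mul]
  ext t
  · simp only [mul_l, one_l, c]; decide
  · simp only [mul_m, one_m, c]; decide
  · simp only [mul_b, mul_l, one_b, c]; decide
  · simp only [mul_f, mul_m, one_f, c]; revert t; decide

theorem conj : a⁻¹ * c * a = c ^ 5 := by
  simp only [pow_succ, pow_zero, one_mul]
  ext t
  · simp only [mul_l, inv_l, a, c]; decide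
  · simp only [mul_m, inv_m, a, c]; decide
  · simp only [mul_b, mul_l, inv_b, inv_l, a, c]; decide
  · simp only [mul_f, mul_m, inv_f, inv_m, a, c]; revert t; decide

theorem solution : h * (a⁻¹ * h⁻¹ * a) * (a⁻¹ * a⁻¹ * h * a * a) = c := by
  ext t
  · simp only [mul_l, inv_l, a, c, h]; decide
  · simp only [mul_m, inv_m, a, c, h]; decide
  · simp only [mul_b, mul_l, inv_b, inv_l, a, c, h]; decide
  · simp only [mul_f, mul_m, mul_l, mul_b, inv_f, inv_b, inv_l, inv_m, a, c, h]; revert t; decide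

end J

/-! ### Embedding the Frobenius group -/

section Embed

variable {K : Type*} [Group K]

/-- the element `a^i c^j` -/
def ψ (a c : K) (x : ZMod 6 × ZMod 7) : K := a ^ x.1.val * c ^ x.2.val

theorem pow_val_add {n : ℕ} [NeZero n] {a : K} (ha : a ^ n = 1) (i j : ZMod n) :
    a ^ (i + j).val = a ^ i.val * a ^ j.val := by
  rw [ZMod.val_add, ← pow_add]
  conv_rhs => rw [← Nat.mod_add_div (i.val + j.val) n, pow_add, pow_mul, ha, one_pow, mul_one]

theorem comm_pow {a c : K} (hac : a⁻¹ * c * a = c ^ 5) (j k : ℕ) :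
    c ^ j * a ^ k = a ^ k * c ^ (j * 5 ^ k) := by
  induction k generalizing j with
  | zero => simp
  | succ k ih =>
    have h1 : c ^ (5 * (j * 5 ^ k)) = a⁻¹ * c ^ (j * 5 ^ k) * a := by
      rw [pow_mul, ← hac]
      have h2 : (a⁻¹ * c * a⁻¹⁻¹) ^ (j * 5 ^ k) = a⁻¹ * c ^ (j * 5 ^ k) * a⁻¹⁻¹ := conj_pow
      rw [inv_inv] at h2
      exact h2
    rw [pow_succ, ← mul_assoc, ih, mul_assoc (a ^ k) a, pow_succ 5 k,
      show j * (5 ^ k * 5) = 5 * (j * 5 ^ k) by ring, h1]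
    group

theorem pow_val_mul {c : K} (hc : c ^ 7 = 1) (j : ZMod 7) (m : ℕ) :
    c ^ (j.val * 5 ^ m) = c ^ (j * 5 ^ m : ZMod 7).val := by
  have h : ∀ x y : ℕ, (x : ZMod 7) = y → c ^ x = c ^ y := by
    intro x y hxy
    rw [ZMod.natCast_eq_natCast_iff'] at hxy
    rw [← Nat.mod_add_div x 7, ← Nat.mod_add_div y 7, pow_add, pow_add, pow_mul, pow_mul, hc,
      one_pow, one_pow, hxy]
  apply h
  push_cast
  rw [ZMod.natCast_zmod_val, ZMod.natCast_zmod_val]

theorem ψ_mul {a c : K} (ha : a ^ 6 = 1) (hc : c ^ 7 = 1) (hac : a⁻¹ * c * a = c ^ 5)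
    (x y : ZMod 6 × ZMod 7) :
    ψ a c x * ψ a c y = ψ a c (x.1 + y.1, x.2 * 5 ^ y.1.val + y.2) := by
  unfold ψ
  simp only
  rw [pow_val_add ha, pow_val_add hc, ← pow_val_mul hc]
  calc a ^ x.1.val * c ^ x.2.val * (a ^ y.1.val * c ^ y.2.val)
      = a ^ x.1.val * (c ^ x.2.val * a ^ y.1.val) * c ^ y.2.val := by group
    _ = a ^ x.1.val * (a ^ y.1.val * c ^ (x.2.val * 5 ^ y.1.val)) * c ^ y.2.val := by
        rw [comm_pow hac]
    _ = _ := by group

theorem ψ_injective {a c : K} (ha : orderOf a = 6) (hc : orderOf c = 7) :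
    Function.Injective (ψ a c) := by
  have ha6 : a ^ 6 = 1 := by rw [← ha]; exact pow_orderOf_eq_one a
  have hc7 : c ^ 7 = 1 := by rw [← hc]; exact pow_orderOf_eq_one c
  rintro ⟨i, j⟩ ⟨k, l⟩ h
  unfold ψ at h
  simp only at h
  -- the common element is trivial
  have h1 : (a ^ k.val)⁻¹ * a ^ i.val = c ^ l.val * (c ^ j.val)⁻¹ := by
    rw [inv_mul_eq_iff_eq_mul, ← mul_assoc, ← h, mul_inv_cancel_right]
  have e6 : ((a ^ k.val)⁻¹ * a ^ i.val) ^ 6 = 1 := by
    have hcomm : Commute ((a ^ k.val)⁻¹) (a ^ i.val) :=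
      ((Commute.refl a).pow_pow _ _).inv_left
    rw [hcomm.mul_pow, inv_pow, ← pow_mul, ← pow_mul, mul_comm, pow_mul, ha6, one_pow, inv_one,
      one_mul, mul_comm, pow_mul, ha6, one_pow]
  have e7 : (c ^ l.val * (c ^ j.val)⁻¹) ^ 7 = 1 := by
    have hcomm : Commute (c ^ l.val) ((c ^ j.val)⁻¹) :=
      ((Commute.refl c).pow_pow _ _).inv_right
    rw [hcomm.mul_pow, inv_pow, ← pow_mul, ← pow_mul, mul_comm, pow_mul, hc7, one_pow, one_mul,
      mul_comm, pow_mul, hc7, one_pow, inv_one]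
  have e1 : (a ^ k.val)⁻¹ * a ^ i.val = 1 := by
    rw [← h1] at e7
    calc (a ^ k.val)⁻¹ * a ^ i.val = ((a ^ k.val)⁻¹ * a ^ i.val) ^ 7 *
          (((a ^ k.val)⁻¹ * a ^ i.val) ^ 6)⁻¹ := by group
      _ = 1 := by rw [e6, e7]; simp
  have e2 : a ^ i.val = a ^ k.val := by
    rw [inv_mul_eq_one] at e1
    exact e1.symm
  have e3 : c ^ j.val = c ^ l.val := by
    rw [e2] at h
    exact mul_left_cancel h
  have e4 : i.val = k.val := by
    have := pow_inj_mod.1 e2
    rw [ha, Nat.mod_eq_of_lt (ZMod.val_lt i), Nat.mod_eq_of_lt (ZMod.val_lt k)] at this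
    exact this
  have e5 : j.val = l.val := by
    have := pow_inj_mod.1 e3
    rw [hc, Nat.mod_eq_of_lt (ZMod.val_lt j), Nat.mod_eq_of_lt (ZMod.val_lt l)] at this
    exact this
  rw [Prod.mk.injEq]
  exact ⟨ZMod.val_injective 6 e4, ZMod.val_injective 7 e5⟩

theorem ψ_zero (a c : K) : ψ a c 0 = 1 := by simp [ψ]

theorem ψ_a (a c : K) : ψ a c (1, 0) = a := by
  have h1 : (1 : ZMod 6).val = 1 := rfl
  simp [ψ, h1]

theorem ψ_c (a c : K) : ψ a c (0, 1) = c := by
  have h1 : (1 : ZMod 7).val = 1 := rfl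
  simp [ψ, h1]

theorem ψ_surjective {a c : K} (ha : a ^ 6 = 1) (hc : c ^ 7 = 1) (hac : a⁻¹ * c * a = c ^ 5)
    (hgen : Subgroup.closure {a, c} = ⊤) : Function.Surjective (ψ a c) := by
  let T : Subgroup K :=
    { carrier := Set.range (ψ a c)
      mul_mem' := by
        rintro _ _ ⟨x, rfl⟩ ⟨y, rfl⟩
        exact ⟨_, (ψ_mul ha hc hac x y).symm⟩
      one_mem' := ⟨0, ψ_zero a c⟩
      inv_mem' := by
        rintro _ ⟨x, rfl⟩
        have h1 : ψ a c (-x.1, 0) * ψ a c (x.1, 0) = 1 := by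
          rw [ψ_mul ha hc hac]
          simp [ψ]
        have h2 : ψ a c (0, -x.2) * ψ a c (0, x.2) = 1 := by
          rw [ψ_mul ha hc hac]
          simp [ψ]
        have h3 : ψ a c x = ψ a c (x.1, 0) * ψ a c (0, x.2) := by simp [ψ]
        refine ⟨(0 + -x.1, -x.2 * 5 ^ (-x.1).val + 0), ?_⟩
        rw [← ψ_mul ha hc hac (0, -x.2) (-x.1, 0), h3, mul_inv_rev, eq_inv_of_mul_eq_one_left h1,
          eq_inv_of_mul_eq_one_left h2] }
  have hT : T = ⊤ := by
    rw [eq_top_iff, ← hgen, Subgroup.closure_le]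
    rintro z (rfl | hz)
    · exact ⟨(1, 0), ψ_a _ _⟩
    · rw [Set.mem_singleton_iff] at hz
      subst hz
      exact ⟨(0, 1), ψ_c _ _⟩
  intro g
  have : g ∈ T := by rw [hT]; exact mem_top g
  exact this

end Embed

theorem order_a : orderOf J.a = 6 := by
  rw [orderOf_eq_iff (by norm_num)]
  refine ⟨J.a_pow, fun m hm hm0 h => ?_⟩
  have hl : ∀ n : ℕ, (J.a ^ n).l = J.three ^ n := by
    intro n
    induction n with
    | zero => rfl
    | succ n ih => rw [pow_succ, J.mul_l, ih, pow_succ]; rfl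
  have h1 := hl m
  rw [h, J.one_l] at h1
  interval_cases m
  all_goals exact absurd h1 (by decide)

theorem c_ne : J.c ≠ 1 := by
  intro h
  have h1 : (1 : ZMod 7) = 0 := congrArg (fun g : J => g.f 0) h
  exact absurd h1 (by decide)

theorem order_c : orderOf J.c = 7 := by
  have : Fact (Nat.Prime 7) := ⟨by norm_num⟩
  exact orderOf_eq_prime J.c_pow c_ne

/-- Let `G` be a group generated by an element `a` of order `6` and an element `c` of order `7` with
`c^a = a⁻¹ c a = c^5` (so `G` is the Frobenius group `⟨c⟩ ⋊ ⟨a⟩` of order `42`). Then `G` embeds in a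
finite solvable group `H` with `H''' = 1` that contains an element `h` with
`h h^{-a} h^{a²} = c`. -/
theorem result (G : Type*) [Group G] (a c : G) (ha : orderOf a = 6) (hc : orderOf c = 7)
    (hac : a⁻¹ * c * a = c ^ 5) (hgen : Subgroup.closure {a, c} = ⊤) :
    ∃ (H : Type) (_ : Group H), Finite H ∧ Group.IsSolvable H ∧ derivedSeries H 3 = ⊥ ∧
      ∃ ι : G →* H, Function.Injective ι ∧
        ∃ h : H, h * ((ι a)⁻¹ * h⁻¹ * ι a) * ((ι a ^ 2)⁻¹ * h * ι a ^ 2) = ι c := by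
  have ha6 : a ^ 6 = 1 := by rw [← ha]; exact pow_orderOf_eq_one a
  have hc7 : c ^ 7 = 1 := by rw [← hc]; exact pow_orderOf_eq_one c
  have hbij : Function.Bijective (ψ a c) :=
    ⟨ψ_injective ha hc, ψ_surjective ha6 hc7 hac hgen⟩
  let e := Equiv.ofBijective _ hbij
  have he : ∀ x, e x = ψ a c x := fun _ => rfl
  have hmul : ∀ x y, e.symm (x * y) = ((e.symm x).1 + (e.symm y).1,
      (e.symm x).2 * 5 ^ (e.symm y).1.val + (e.symm y).2) := by
    intro x y
    rw [Equiv.symm_apply_eq, he, ← ψ_mul ha6 hc7 hac, ← he, ← he, e.apply_symm_apply,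
      e.apply_symm_apply]
  let ι : G →* J :=
    { toFun := fun g => ψ J.a J.c (e.symm g)
      map_one' := by
        have : e.symm 1 = 0 := by rw [Equiv.symm_apply_eq, he, ψ_zero]
        rw [this, ψ_zero]
      map_mul' := by
        intro x y
        rw [hmul, ψ_mul J.a_pow J.c_pow J.conj] }
  have hιa : ι a = J.a := by
    show ψ J.a J.c (e.symm a) = J.a
    have : e.symm a = (1, 0) := by
      rw [Equiv.symm_apply_eq, he, ψ_a]
    rw [this, ψ_a]
  have hιc : ι c = J.c := by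
    show ψ J.a J.c (e.symm c) = J.c
    have : e.symm c = (0, 1) := by
      rw [Equiv.symm_apply_eq, he, ψ_c]
    rw [this, ψ_c]
  refine ⟨J, inferInstance, inferInstance, ⟨3, J.derived_three⟩, J.derived_three, ι, ?_, J.h, ?_⟩
  · intro x y hxy
    exact e.symm.injective (ψ_injective order_a order_c hxy)
  · rw [hιa, hιc, ← J.solution]
    simp only [sq, mul_inv_rev, mul_assoc]

end Pool.Agent.Results.MP_a21721_al.FiniteSolvable
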